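import Mathlib
import Pool.Agent.H500R2.Base

set_option autoImplicit false

/-! Upper bounds for mean values of completely multiplicative weights. -/

namespace Pool.Agent.V11294.TC

open Finset
open Pool.Agent.H500R2 (W L PP W_mul W_one W_nonneg W_prime euler_upper mertens_L W_eq_prod mem_PP)
open ArithmeticFunction (vonMangoldt)

lemma W_pow {c : ℕ → ℝ} {p k : ℕ} (hp : p.Prime) : W c (p ^ k) = c p ^ k := by
  unfold W
  rw [hp.factorization_pow, Finsupp.prod_single_index (by simp)]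

/-- admissible weights -/
def Adm (c : ℕ → ℝ) : Prop := (∀ p, 0 ≤ c p) ∧ (∀ p, c p ≤ 13 / 10) ∧ (∀ p, p ≤ 2 → c p ≤ 1)

lemma W_pp_le {c : ℕ → ℝ} (hc : Adm c) {d : ℕ} (hd : IsPrimePow d) : W c d ≤ (d : ℝ) ^ (1 / 4 : ℝ) := by
  obtain ⟨p, k, hp, hk, rfl⟩ := (isPrimePow_nat_iff d).1 hd
  rw [W_pow hp]
  have h2 : (2 : ℝ) ≤ p := by exact_mod_cast hp.two_le
  have hcp : c p ≤ (p : ℝ) ^ (1 / 4 : ℝ) := by
    rcases Nat.lt_or_ge 2 p with h | h
    · have h3 : (3 : ℝ) ≤ p := by exact_mod_cast h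
      refine (hc.2.1 p).trans ?_
      calc (13 / 10 : ℝ) = ((13 / 10 : ℝ) ^ (4 : ℝ)) ^ (1 / 4 : ℝ) := by
            rw [← Real.rpow_mul (by norm_num)]; norm_num
        _ ≤ (p : ℝ) ^ (1 / 4 : ℝ) := by
            apply Real.rpow_le_rpow (by positivity) _ (by norm_num)
            refine le_trans ?_ h3
            rw [show (4 : ℝ) = ((4 : ℕ) : ℝ) by norm_num, Real.rpow_natCast]
            norm_num
    · refine (hc.2.2 p h).trans ?_
      apply Real.one_le_rpow (by linarith) (by norm_num)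
  calc c p ^ k ≤ ((p : ℝ) ^ (1 / 4 : ℝ)) ^ k := pow_le_pow_left₀ (hc.1 p) hcp k
    _ = (((p ^ k : ℕ) : ℝ)) ^ (1 / 4 : ℝ) := by
        rw [Nat.cast_pow, ← Real.rpow_natCast, ← Real.rpow_natCast, ← Real.rpow_mul (by positivity),
          ← Real.rpow_mul (by positivity), mul_comm]

lemma cheb_weight : ∃ C : ℝ, 0 < C ∧ ∀ c : ℕ → ℝ, Adm c → ∀ Y : ℕ,
    ∑ d ∈ Ioc 0 Y, vonMangoldt d * W c d ≤ C * Y := by
  refine ⟨4 + 8, by norm_num, ?_⟩
  intro c hc Y
  rcases Nat.eq_zero_or_pos Y with rfl | hY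
  · simp
  have hYR : (1 : ℝ) ≤ Y := by exact_mod_cast hY
  rw [← sum_filter_add_sum_filter_not _ Nat.Prime]
  have h1 : ∑ d ∈ (Ioc 0 Y).filter Nat.Prime, vonMangoldt d * W c d ≤ 4 * Y := by
    have h2 : ∑ d ∈ (Ioc 0 Y).filter Nat.Prime, vonMangoldt d * W c d ≤
        ∑ d ∈ (Ioc 0 Y).filter Nat.Prime, 13 / 10 * Real.log d := by
      apply sum_le_sum
      intro d hd
      have hp := (mem_filter.1 hd).2
      rw [ArithmeticFunction.vonMangoldt_apply_prime hp, W_prime c hp, mul_comm]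
      apply mul_le_mul_of_nonneg_right (hc.2.1 d)
      exact Real.log_nonneg (by exact_mod_cast hp.one_lt.le)
    refine h2.trans ?_
    rw [← mul_sum]
    have h3 := Chebyshev.theta_le_log4_mul_x (x := (Y : ℝ)) (by positivity)
    have h4 : Chebyshev.theta (Y : ℝ) = ∑ p ∈ (Ioc 0 Y).filter Nat.Prime, Real.log p := by
      rw [Chebyshev.theta, Nat.floor_natCast]
    rw [h4] at h3
    have hlog4 : Real.log 4 ≤ 2 := by
      have h1 : Real.log 4 = 2 * Real.log 2 := by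
        rw [show (4 : ℝ) = 2 ^ 2 by norm_num, Real.log_pow]; norm_num
      have := Real.log_two_lt_d9
      linarith
    have : Real.log 4 * (Y : ℝ) ≤ 2 * Y := by gcongr
    linarith
  have h2 : ∑ d ∈ (Ioc 0 Y).filter (fun d => ¬ d.Prime), vonMangoldt d * W c d ≤ 8 * Y := by
    have h3 : ∑ d ∈ (Ioc 0 Y).filter (fun d => ¬ d.Prime), vonMangoldt d * W c d ≤
        ∑ d ∈ (Ioc 0 Y).filter (fun d => ¬ d.Prime), (Y : ℝ) ^ (1 / 4 : ℝ) * vonMangoldt d := by
      apply sum_le_sum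
      intro d hd
      rw [mem_filter, mem_Ioc] at hd
      by_cases hpp : IsPrimePow d
      · rw [mul_comm]
        apply mul_le_mul_of_nonneg_right _ ArithmeticFunction.vonMangoldt_nonneg
        refine (W_pp_le hc hpp).trans ?_
        apply Real.rpow_le_rpow (by positivity) _ (by norm_num)
        exact_mod_cast hd.1.2
      · rw [ArithmeticFunction.vonMangoldt_eq_zero_iff.2 hpp]; simp
    refine h3.trans ?_
    rw [← mul_sum]
    have h4 := Chebyshev.psi_sub_theta_le (x := (Y : ℝ)) hYR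
    rw [Chebyshev.psi_sub_theta_eq_sum_not_prime, Nat.floor_natCast] at h4
    have h5 : Real.log Y ≤ (Y : ℝ) ^ (1 / 4 : ℝ) / (1 / 4) :=
      Real.log_le_rpow_div (by positivity) (by norm_num)
    have h6 : √(Y : ℝ) = (Y : ℝ) ^ (1 / 2 : ℝ) := Real.sqrt_eq_rpow _
    calc (Y : ℝ) ^ (1 / 4 : ℝ) * ∑ d ∈ (Ioc 0 Y).filter (fun d => ¬ d.Prime), vonMangoldt d
        ≤ (Y : ℝ) ^ (1 / 4 : ℝ) * (2 * (Y : ℝ) ^ (1 / 2 : ℝ) * ((Y : ℝ) ^ (1 / 4 : ℝ) / (1 / 4))) := by
          apply mul_le_mul_of_nonneg_left _ (by positivity)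
          refine h4.trans ?_
          rw [h6]
          gcongr
      _ = 8 * ((Y : ℝ) ^ (1 / 4 : ℝ) * (Y : ℝ) ^ (1 / 2 : ℝ) * (Y : ℝ) ^ (1 / 4 : ℝ)) := by ring
      _ = 8 * Y := by
          rw [← Real.rpow_add (by positivity), ← Real.rpow_add (by positivity)]
          norm_num
  linarith

/-- swapping sums over divisors -/
lemma swap (F : ℕ → ℕ → ℝ) (X : ℕ) :
    ∑ m ∈ Ioc 0 X, ∑ d ∈ m.divisors, F d (m / d) =
      ∑ d ∈ Ioc 0 X, ∑ e ∈ Ioc 0 (X / d), F d e := by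
  have h1 : ∀ m ∈ Ioc 0 X, ∑ d ∈ m.divisors, F d (m / d) =
      ∑ d ∈ Ioc 0 X, if d ∣ m then F d (m / d) else 0 := by
    intro m hm
    rw [mem_Ioc] at hm
    rw [← sum_filter]
    apply sum_congr _ fun _ _ => rfl
    ext d
    rw [Nat.mem_divisors, mem_filter, mem_Ioc]
    constructor
    · rintro ⟨h, _⟩
      exact ⟨⟨Nat.pos_of_dvd_of_pos h hm.1, (Nat.le_of_dvd hm.1 h).trans hm.2⟩, h⟩
    · rintro ⟨_, h⟩; exact ⟨h, by omega⟩
  rw [sum_congr rfl h1, sum_comm]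
  apply sum_congr rfl
  intro d hd
  rw [mem_Ioc] at hd
  rw [← sum_filter]
  symm
  apply sum_bij' (fun e _ => d * e) (fun m _ => m / d)
  · intro e he
    rw [mem_Ioc] at he
    rw [mem_filter, mem_Ioc]
    refine ⟨⟨Nat.mul_pos hd.1 he.1, ?_⟩, dvd_mul_right _ _⟩
    rw [mul_comm]
    exact (Nat.le_div_iff_mul_le hd.1).1 he.2
  · intro m hm
    rw [mem_filter, mem_Ioc] at hm
    rw [mem_Ioc]
    exact ⟨Nat.div_pos (Nat.le_of_dvd hm.1.1 hm.2) hd.1, Nat.div_le_div_right hm.1.2⟩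
  · intro e _
    exact Nat.mul_div_cancel_left e hd.1
  · intro m hm
    exact Nat.mul_div_cancel' (mem_filter.1 hm).2
  · intro e _
    rw [Nat.mul_div_cancel_left e hd.1]

lemma mean : ∃ C : ℝ, 0 < C ∧ ∀ c : ℕ → ℝ, Adm c → ∀ X : ℕ, 1 ≤ X →
    Real.log X * ∑ m ∈ Ioc 0 X, W c m ≤ C * X * ∑ m ∈ Ioc 0 X, W c m / m := by
  obtain ⟨C0, hC0, hcheb⟩ := cheb_weight
  refine ⟨1 + C0, by positivity, ?_⟩
  intro c hc X hX
  have hXR : (0 : ℝ) < X := by exact_mod_cast hX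
  have hWn : ∀ n, 0 ≤ W c n := fun n => W_nonneg hc.1 n
  have h1 : Real.log X * ∑ m ∈ Ioc 0 X, W c m =
      ∑ m ∈ Ioc 0 X, W c m * Real.log (X / m) + ∑ m ∈ Ioc 0 X, W c m * Real.log m := by
    rw [mul_sum, ← sum_add_distrib]
    apply sum_congr rfl
    intro m hm
    rw [mem_Ioc] at hm
    have hmR : (0 : ℝ) < m := by exact_mod_cast hm.1
    rw [Real.log_div (ne_of_gt hXR) (ne_of_gt hmR)]
    ring
  have h2 : ∑ m ∈ Ioc 0 X, W c m * Real.log (X / m) ≤ X * ∑ m ∈ Ioc 0 X, W c m / m := by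
    rw [mul_sum]
    apply sum_le_sum
    intro m hm
    rw [mem_Ioc] at hm
    have hmR : (0 : ℝ) < m := by exact_mod_cast hm.1
    have : Real.log ((X : ℝ) / m) ≤ X / m := by
      have := Real.log_le_sub_one_of_pos (show 0 < (X : ℝ) / m by positivity)
      linarith
    calc W c m * Real.log (X / m) ≤ W c m * (X / m) := by
          apply mul_le_mul_of_nonneg_left this (hWn m)
      _ = X * (W c m / m) := by ring
  have h3 : ∑ m ∈ Ioc 0 X, W c m * Real.log m ≤ C0 * X * ∑ m ∈ Ioc 0 X, W c m / m := by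
    have h4 : ∑ m ∈ Ioc 0 X, W c m * Real.log m =
        ∑ m ∈ Ioc 0 X, ∑ d ∈ m.divisors, vonMangoldt d * W c d * W c (m / d) := by
      apply sum_congr rfl
      intro m hm
      rw [mem_Ioc] at hm
      rw [← ArithmeticFunction.vonMangoldt_sum, mul_sum]
      apply sum_congr rfl
      intro d hd
      have hdm := Nat.dvd_of_mem_divisors hd
      have hd0 : d ≠ 0 := (Nat.pos_of_mem_divisors hd).ne'
      have hmd : m / d ≠ 0 := (Nat.div_pos (Nat.le_of_dvd hm.1 hdm) (Nat.pos_of_ne_zero hd0)).ne'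
      have h5 : W c m = W c d * W c (m / d) := by
        rw [← W_mul c hd0 hmd, Nat.mul_div_cancel' hdm]
      rw [h5]; ring
    rw [h4, swap (fun d e => vonMangoldt d * W c d * W c e) X]
    -- swap again
    have h5 : ∑ d ∈ Ioc 0 X, ∑ e ∈ Ioc 0 (X / d), vonMangoldt d * W c d * W c e =
        ∑ e ∈ Ioc 0 X, W c e * ∑ d ∈ Ioc 0 (X / e), vonMangoldt d * W c d := by
      have h6 : ∀ d ∈ Ioc 0 X, ∑ e ∈ Ioc 0 (X / d), vonMangoldt d * W c d * W c e =
          ∑ e ∈ Ioc 0 X, if d * e ≤ X then vonMangoldt d * W c d * W c e else 0 := by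
        intro d hd
        rw [mem_Ioc] at hd
        rw [← sum_filter]
        apply sum_congr _ fun _ _ => rfl
        ext e
        rw [mem_Ioc, mem_filter, mem_Ioc, Nat.le_div_iff_mul_le hd.1]
        constructor
        · rintro ⟨h1, h2⟩
          have : e ≤ e * d := Nat.le_mul_of_pos_right _ hd.1
          refine ⟨⟨h1, by omega⟩, by rwa [mul_comm]⟩
        · rintro ⟨⟨h1, h2⟩, h3⟩
          exact ⟨h1, by rwa [mul_comm]⟩
      rw [sum_congr rfl h6, sum_comm]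
      apply sum_congr rfl
      intro e he
      rw [mem_Ioc] at he
      rw [← sum_filter, mul_sum]
      apply sum_congr
      · ext d
        rw [mem_filter, mem_Ioc, mem_Ioc, Nat.le_div_iff_mul_le he.1]
        constructor
        · rintro ⟨⟨h1, h2⟩, h3⟩; exact ⟨h1, h3⟩
        · rintro ⟨h1, h2⟩
          have : d ≤ d * e := Nat.le_mul_of_pos_right _ he.1
          exact ⟨⟨h1, by omega⟩, h2⟩
      · intro d _; ring
    rw [h5, mul_sum]
    apply sum_le_sum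
    intro e he
    rw [mem_Ioc] at he
    have heR : (0 : ℝ) < e := by exact_mod_cast he.1
    have h6 := hcheb c hc (X / e)
    have h7 : ((X / e : ℕ) : ℝ) ≤ (X : ℝ) / e := Nat.cast_div_le
    calc W c e * ∑ d ∈ Ioc 0 (X / e), vonMangoldt d * W c d ≤ W c e * (C0 * (X / e)) := by
          apply mul_le_mul_of_nonneg_left _ (hWn e)
          refine h6.trans ?_
          gcongr
      _ = C0 * X * (W c e / e) := by ring
  rw [h1]
  nlinarith

lemma mean_le : ∃ C : ℝ, 0 < C ∧ ∀ c : ℕ → ℝ, Adm c → ∀ X : ℕ, 2 ≤ X →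
    ∑ m ∈ Ioc 0 X, W c m ≤ C * X / Real.log X * Real.exp (∑ p ∈ PP X, c p / p) := by
  obtain ⟨C0, hC0, hmean⟩ := mean
  refine ⟨C0 * Real.exp 9, by positivity, ?_⟩
  intro c hc X hX
  have hlog : 0 < Real.log X := Real.log_pos (by exact_mod_cast hX)
  have h1 := hmean c hc X (by omega)
  have h2 := euler_upper hc.1 (fun p => (hc.2.1 p).trans (by norm_num)) X
  have h3 : ∑ m ∈ Ioc 0 X, W c m / m ≤ Real.exp (∑ p ∈ PP X, c p / p + 9) := h2
  rw [Real.exp_add] at h3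
  have h4 : ∑ m ∈ Ioc 0 X, W c m ≤ (C0 * X * ∑ m ∈ Ioc 0 X, W c m / m) / Real.log X := by
    rw [le_div_iff₀ hlog, mul_comm]; exact h1
  refine h4.trans ?_
  rw [div_mul_eq_mul_div]
  apply div_le_div_of_nonneg_right _ hlog.le
  calc C0 * X * ∑ m ∈ Ioc 0 X, W c m / m
      ≤ C0 * X * (Real.exp (∑ p ∈ PP X, c p / p) * Real.exp 9) := by gcongr
    _ = _ := by ring

end Pool.Agent.V11294.TC
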