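import Mathlib
import Pool.Agent.V11294.TC.Mean

set_option autoImplicit false

/-! Specialised mean values. -/

namespace Pool.Agent.V11294.TC

open Finset
open Pool.Agent.H500R2 (W L PP W_mul W_one W_nonneg W_prime euler_upper mertens_L W_eq_prod mem_PP)

/-- weight `a` up to `y`, weight `b` beyond -/
noncomputable def cc (y : ℕ) (a b : ℝ) (p : ℕ) : ℝ := if p ≤ y then a else b

lemma adm_cc {y : ℕ} (hy : 2 ≤ y) {a b : ℝ} (ha0 : 0 ≤ a) (ha1 : a ≤ 1) (hb0 : 0 ≤ b)
    (hb1 : b ≤ 13 / 10) : Adm (cc y a b) := by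
  refine ⟨?_, ?_, ?_⟩
  · intro p; unfold cc; split_ifs <;> assumption
  · intro p; unfold cc; split_ifs
    · linarith
    · exact hb1
  · intro p hp; unfold cc; rw [if_pos (by omega)]; exact ha1

lemma spec : ∃ C : ℝ, 0 < C ∧ ∀ a b : ℝ, 0 ≤ a → a ≤ 1 → 0 ≤ b → b ≤ 13 / 10 →
    ∀ y X : ℕ, 3 ≤ y → y ≤ X →
    ∑ m ∈ Ioc 0 X, W (cc y a b) m ≤
      C * X * Real.log X ^ (b - 1) * Real.log y ^ (a - b) := by
  obtain ⟨C0, hC0, hmean⟩ := mean_le
  obtain ⟨C1, hC1, hmer⟩ := mertens_L
  refine ⟨C0 * Real.exp (4 * C1), by positivity, ?_⟩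
  intro a b ha0 ha1 hb0 hb1 y X hy hyX
  have hyR : (3 : ℝ) ≤ y := by exact_mod_cast hy
  have hXR : (3 : ℝ) ≤ X := by exact_mod_cast hy.trans hyX
  have hlogX : 0 < Real.log X := Real.log_pos (by linarith)
  have hlogy : 0 < Real.log y := Real.log_pos (by linarith)
  have h1 := hmean (cc y a b) (adm_cc (by omega) ha0 ha1 hb0 hb1) X (by omega)
  have hsum : ∑ p ∈ PP X, cc y a b p / p = b * L X + (a - b) * L y := by
    have h2 : ∑ p ∈ PP X, cc y a b p / p = ∑ p ∈ PP X, (b * (1 / (p : ℝ)) +
        (if p ∈ PP y then (a - b) * (1 / (p : ℝ)) else 0)) := by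
      apply sum_congr rfl
      intro p hp
      rw [mem_PP] at hp
      unfold cc
      by_cases h : p ≤ y
      · rw [if_pos h, if_pos (mem_PP.2 ⟨hp.1, h⟩)]; ring
      · rw [if_neg h, if_neg (fun hh => h (mem_PP.1 hh).2)]; ring
    rw [h2, sum_add_distrib, ← mul_sum, ← sum_filter]
    have h3 : (PP X).filter (fun p => p ∈ PP y) = PP y := by
      ext p
      rw [mem_filter, mem_PP, mem_PP]
      constructor
      · exact fun h => h.2
      · exact fun h => ⟨⟨h.1, h.2.trans hyX⟩, h⟩
    rw [h3, ← mul_sum]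
    rfl
  have hLX := abs_le.1 (hmer X (hy.trans hyX))
  have hLy := abs_le.1 (hmer y hy)
  have hbd : b * L X + (a - b) * L y ≤
      b * Real.log (Real.log X) + (a - b) * Real.log (Real.log y) + 4 * C1 := by
    have e1 : b * L X ≤ b * (Real.log (Real.log X) + C1) := by
      apply mul_le_mul_of_nonneg_left _ hb0
      linarith
    have e2 : (a - b) * (L y - Real.log (Real.log y)) ≤ 2 * C1 := by
      rcases le_total 0 (a - b) with h | h
      · have : (a - b) * (L y - Real.log (Real.log y)) ≤ (a - b) * C1 :=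
          mul_le_mul_of_nonneg_left hLy.2 h
        nlinarith
      · have h5 : 0 ≤ b - a := by linarith
        have : (b - a) * (-(L y - Real.log (Real.log y))) ≤ (b - a) * C1 :=
          mul_le_mul_of_nonneg_left (by linarith [hLy.1]) h5
        nlinarith
    nlinarith
  rw [hsum] at h1
  refine h1.trans ?_
  have hexp : Real.exp (b * L X + (a - b) * L y) ≤
      Real.log X ^ b * Real.log y ^ (a - b) * Real.exp (4 * C1) := by
    refine (Real.exp_le_exp.2 hbd).trans (le_of_eq ?_)
    rw [Real.exp_add, Real.exp_add, Real.rpow_def_of_pos hlogX, Real.rpow_def_of_pos hlogy]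
    rw [mul_comm b, mul_comm (a - b)]
  calc C0 * X / Real.log X * Real.exp (b * L X + (a - b) * L y)
      ≤ C0 * X / Real.log X * (Real.log X ^ b * Real.log y ^ (a - b) * Real.exp (4 * C1)) := by
        gcongr
    _ = C0 * Real.exp (4 * C1) * X * Real.log X ^ (b - 1) * Real.log y ^ (a - b) := by
        rw [Real.rpow_sub hlogX, Real.rpow_one]
        ring

/-- number of prime factors beyond `y`, with multiplicity -/
def Om (y n : ℕ) : ℕ := ∑ p ∈ n.primeFactors.filter (fun p => y < p), n.factorization p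

lemma W_cc_one (y : ℕ) (b : ℝ) (n : ℕ) : W (cc y 1 b) n = b ^ Om y n := by
  rw [W_eq_prod, ← prod_filter_mul_prod_filter_not n.primeFactors (fun p => y < p)]
  have h1 : ∏ p ∈ n.primeFactors.filter (fun p => ¬ y < p), cc y 1 b p ^ n.factorization p = 1 := by
    apply prod_eq_one
    intro p hp
    have := (mem_filter.1 hp).2
    unfold cc
    rw [if_pos (by omega), one_pow]
  have h2 : ∏ p ∈ n.primeFactors.filter (fun p => y < p), cc y 1 b p ^ n.factorization p =
      b ^ Om y n := by
    unfold Om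
    rw [← prod_pow_eq_pow_sum]
    apply prod_congr rfl
    intro p hp
    have := (mem_filter.1 hp).2
    unfold cc
    rw [if_neg (by omega)]
  rw [h1, h2, mul_one]

lemma W_cc_rough {y : ℕ} (b : ℝ) {n : ℕ} (hn : ∀ p ∈ n.primeFactors, y < p) :
    W (cc y 0 b) n = W (cc y 1 b) n := by
  rw [W_eq_prod, W_eq_prod]
  apply prod_congr rfl
  intro p hp
  have := hn p hp
  unfold cc
  rw [if_neg (by omega), if_neg (by omega)]

/-- logarithm of the smooth part -/
noncomputable def ls (y n : ℕ) : ℝ :=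
  ∑ p ∈ n.primeFactors.filter (fun p => ¬ y < p), (n.factorization p : ℝ) * Real.log p

lemma ls_nonneg (y n : ℕ) : 0 ≤ ls y n := by
  apply sum_nonneg
  intro p hp
  have := (Nat.prime_of_mem_primeFactors (mem_filter.1 hp).1).one_lt.le
  have h1 : (1 : ℝ) ≤ p := by exact_mod_cast this
  exact mul_nonneg (by positivity) (Real.log_nonneg h1)

lemma ls_mono {y a n : ℕ} (hn : n ≠ 0) (h : a ∣ n) : ls y a ≤ ls y n := by
  have ha : a ≠ 0 := ne_zero_of_dvd_ne_zero hn h
  have h1 : a.primeFactors ⊆ n.primeFactors := Nat.primeFactors_mono h hn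
  have h2 := (Nat.factorization_le_iff_dvd ha hn).2 h
  unfold ls
  refine (sum_le_sum (g := fun p => (n.factorization p : ℝ) * Real.log p) ?_).trans ?_
  · intro p hp
    have := (Nat.prime_of_mem_primeFactors (mem_filter.1 hp).1).one_lt.le
    have h3 : (1 : ℝ) ≤ p := by exact_mod_cast this
    apply mul_le_mul_of_nonneg_right _ (Real.log_nonneg h3)
    exact_mod_cast h2 p
  · apply sum_le_sum_of_subset_of_nonneg
    · exact filter_subset_filter _ h1
    · intro p hp _
      have := (Nat.prime_of_mem_primeFactors (mem_filter.1 hp).1).one_lt.le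
      have h3 : (1 : ℝ) ≤ p := by exact_mod_cast this
      exact mul_nonneg (by positivity) (Real.log_nonneg h3)

lemma fact_sum (X : ℕ) {p : ℕ} (hp : p.Prime) :
    ∑ n ∈ Ioc 0 X, (n.factorization p : ℝ) ≤ 2 * X / p := by
  have h1 : ∑ n ∈ Ioc 0 X, n.factorization p = (X.factorial).factorization p := by
    induction X with
    | zero => simp
    | succ X ih =>
      rw [← Finset.insert_Ioc_right_eq_Ioc_add_one (by omega : 0 ≤ X), sum_insert (by simp), ih,
        Nat.factorial_succ, Nat.factorization_mul (by omega) (Nat.factorial_ne_zero X)]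
      rfl
  have h2 : (p - 1) * (X.factorial).factorization p ≤ X := by
    have : Fact p.Prime := ⟨hp⟩
    have h3 := sub_one_mul_padicValNat_factorial (p := p) X
    rw [Nat.factorization_def _ hp, h3]
    exact Nat.sub_le _ _
  have hp2 : (2 : ℝ) ≤ p := by exact_mod_cast hp.two_le
  have h3 : ((p : ℝ) - 1) * ((X.factorial).factorization p : ℝ) ≤ X := by
    have : (((p - 1) * (X.factorial).factorization p : ℕ) : ℝ) ≤ X := by exact_mod_cast h2
    rw [Nat.cast_mul, Nat.cast_sub hp.one_lt.le, Nat.cast_one] at this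
    exact this
  have h4 : ∑ n ∈ Ioc 0 X, (n.factorization p : ℝ) = ((X.factorial).factorization p : ℝ) := by
    exact_mod_cast h1
  rw [h4, le_div_iff₀ (by linarith)]
  have h5 : (0 : ℝ) ≤ ((X.factorial).factorization p : ℝ) := by positivity
  nlinarith

lemma ls_sum : ∃ C : ℝ, 0 < C ∧ ∀ y X : ℕ, 1 ≤ y →
    ∑ n ∈ Ioc 0 X, ls y n ≤ 2 * X * (Real.log y + C) := by
  obtain ⟨C, hC⟩ := Pool.Agent.Helper256.KM.mertens_log
  refine ⟨max C 1, lt_of_lt_of_le one_pos (le_max_right _ _), ?_⟩
  intro y X hy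
  have h1 : ∀ n ∈ Ioc 0 X, ls y n ≤ ∑ p ∈ (Icc 1 y).filter Nat.Prime,
      (n.factorization p : ℝ) * Real.log p := by
    intro n _
    unfold ls
    apply sum_le_sum_of_subset_of_nonneg
    · intro p hp
      rw [mem_filter] at hp
      rw [mem_filter, mem_Icc]
      have hpp := Nat.prime_of_mem_primeFactors hp.1
      exact ⟨⟨hpp.one_lt.le, by omega⟩, hpp⟩
    · intro p hp _
      have := (mem_filter.1 hp).2.one_lt.le
      have h3 : (1 : ℝ) ≤ p := by exact_mod_cast this
      exact mul_nonneg (by positivity) (Real.log_nonneg h3)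
  refine (sum_le_sum h1).trans ?_
  rw [sum_comm]
  have h2 : ∀ p ∈ (Icc 1 y).filter Nat.Prime, ∑ n ∈ Ioc 0 X, (n.factorization p : ℝ) * Real.log p ≤
      2 * X * (Real.log p / p) := by
    intro p hp
    have hpp := (mem_filter.1 hp).2
    rw [← sum_mul]
    have h3 : (1 : ℝ) ≤ p := by exact_mod_cast hpp.one_lt.le
    calc (∑ n ∈ Ioc 0 X, (n.factorization p : ℝ)) * Real.log p ≤ (2 * X / p) * Real.log p := by
          apply mul_le_mul_of_nonneg_right (fact_sum X hpp) (Real.log_nonneg h3)
      _ = _ := by ring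
  refine (sum_le_sum h2).trans ?_
  rw [← mul_sum]
  apply mul_le_mul_of_nonneg_left _ (by positivity)
  have := (abs_le.1 (hC y hy)).2
  have h3 : C ≤ max C 1 := le_max_left _ _
  linarith

end Pool.Agent.V11294.TC
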