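import Mathlib
import Pool.Agent.V11294.TC.Spec

set_option autoImplicit false

/-! Integers with a divisor in a short logarithmic window. -/

namespace Pool.Agent.V11294.TC

open Finset
open Pool.Agent.H500R2 (W W_mul W_nonneg)

lemma log_one_le {y : ℕ} (hy : 3 ≤ y) : 1 ≤ Real.log y := by
  have hyR : (3 : ℝ) ≤ y := by exact_mod_cast hy
  rw [Real.le_log_iff_exp_le (by linarith)]
  linarith [Real.exp_one_lt_d9]

/-- the condition on the rough divisor -/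
def Pd (T R y d : ℕ) : Prop :=
  (∀ p ∈ d.primeFactors, y < p) ∧ d ≤ y ^ R ∧ y ^ R ≤ d * y ^ (T + 1)

lemma E3_bound : ∃ C : ℝ, 0 < C ∧ ∀ T R y : ℕ, ∀ κ : ℝ, 2 * T + 6 ≤ R → 3 ≤ y →
    ((Set.ncard {n : ℕ | n ∈ Ioc 0 (y ^ (2 * R)) ∧ (Om y n : ℝ) ≤ κ ∧ ∃ d, d ∣ n ∧ Pd T R y d} : ℕ) : ℝ) ≤
      C * 2 ^ κ * (T + 2) / R * y ^ (2 * R) := by
  classical
  obtain ⟨C0, hC0, hspec⟩ := spec
  refine ⟨6 * C0 ^ 2, by positivity, ?_⟩
  intro T R y κ hR hy
  have hyR : (3 : ℝ) ≤ y := by exact_mod_cast hy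
  have hℓ := log_one_le hy
  set ℓ := Real.log y with hℓd
  have hℓ0 : 0 < ℓ := by linarith
  have hRR : (6 : ℝ) ≤ R := by exact_mod_cast (by omega : 6 ≤ R)
  set N := y ^ R with hN
  set X := y ^ (2 * R) with hX
  have hXN : X = N * N := by rw [hX, hN, ← pow_add]; congr 1; omega
  have hy1 : 1 ≤ y := by omega
  have hNpos : 0 < N := Nat.pow_pos (by omega)
  have hXpos : 0 < X := Nat.pow_pos (by omega)
  set c2 := cc y 1 (1 / 2) with hc2
  set c3 := cc y 0 (1 / 2) with hc3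
  have hA2 : Adm c2 := adm_cc (by omega) (by norm_num) (by norm_num) (by norm_num) (by norm_num)
  have hA3 : Adm c3 := adm_cc (by omega) (by norm_num) (by norm_num) (by norm_num) (by norm_num)
  have hW2 : ∀ n, 0 ≤ W c2 n := fun n => W_nonneg hA2.1 n
  have hW3 : ∀ n, 0 ≤ W c3 n := fun n => W_nonneg hA3.1 n
  set F : ℕ → ℕ → ℝ := fun d e => (if Pd T R y d then W c3 d else 0) * (2 ^ κ * W c2 e) with hF
  have hF0 : ∀ d e, 0 ≤ F d e := by
    intro d e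
    rw [hF]
    simp only
    apply mul_nonneg
    · split_ifs
      · exact hW3 d
      · exact le_rfl
    · exact mul_nonneg (by positivity) (hW2 e)
  -- step 1
  have hset : {n : ℕ | n ∈ Ioc 0 X ∧ (Om y n : ℝ) ≤ κ ∧ ∃ d, d ∣ n ∧ Pd T R y d} =
      (((Ioc 0 X).filter (fun n => (Om y n : ℝ) ≤ κ ∧ ∃ d, d ∣ n ∧ Pd T R y d) : Finset ℕ) :
        Set ℕ) := by
    ext n; simp
  have h1 : ((Set.ncard {n : ℕ | n ∈ Ioc 0 X ∧ (Om y n : ℝ) ≤ κ ∧ ∃ d, d ∣ n ∧ Pd T R y d} : ℕ) : ℝ) ≤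
      ∑ n ∈ Ioc 0 X, ∑ d ∈ n.divisors, F d (n / d) := by
    rw [hset, Set.ncard_coe_finset, card_eq_sum_ones]
    push_cast
    rw [sum_filter]
    apply sum_le_sum
    intro n hn
    rw [mem_Ioc] at hn
    split_ifs with h
    · obtain ⟨hOm, d, hdn, hPd⟩ := h
      have hd0 : d ≠ 0 := ne_zero_of_dvd_ne_zero (by omega) hdn
      have hnd0 : n / d ≠ 0 := (Nat.div_pos (Nat.le_of_dvd hn.1 hdn) (Nat.pos_of_ne_zero hd0)).ne'
      have h2 : F d (n / d) ≤ ∑ d ∈ n.divisors, F d (n / d) :=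
        single_le_sum (f := fun d => F d (n / d)) (fun i _ => hF0 _ _)
          (Nat.mem_divisors.2 ⟨hdn, by omega⟩)
      refine le_trans ?_ h2
      rw [hF]
      simp only
      rw [if_pos hPd, hc3, W_cc_rough _ hPd.1, ← hc2]
      have h3 : W c2 d * (2 ^ κ * W c2 (n / d)) = 2 ^ κ * W c2 n := by
        have : W c2 n = W c2 d * W c2 (n / d) := by
          rw [← W_mul c2 hd0 hnd0, Nat.mul_div_cancel' hdn]
        rw [this]; ring
      rw [h3, hc2, W_cc_one]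
      have h4 : (1 / 2 : ℝ) ^ Om y n = (2 : ℝ) ^ (-(Om y n : ℝ)) := by
        rw [Real.rpow_neg (by norm_num), Real.rpow_natCast, one_div, inv_pow]
      rw [h4, ← Real.rpow_add (by norm_num)]
      apply Real.one_le_rpow (by norm_num)
      linarith
    · exact sum_nonneg fun d _ => hF0 _ _
  refine h1.trans ?_
  rw [swap F X]
  -- step 3
  have h3 : ∀ d ∈ Ioc 0 X, ∑ e ∈ Ioc 0 (X / d), F d e ≤
      (2 ^ κ * C0 * X * (R : ℝ) ^ (-(1 / 2) : ℝ)) * (if Pd T R y d then W c3 d / d else 0) := by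
    intro d hd
    rw [mem_Ioc] at hd
    have hdR : (0 : ℝ) < d := by exact_mod_cast hd.1
    by_cases hPd : Pd T R y d
    · rw [if_pos hPd]
      have h4 : ∑ e ∈ Ioc 0 (X / d), F d e = W c3 d * (2 ^ κ * ∑ e ∈ Ioc 0 (X / d), W c2 e) := by
        rw [hF]
        simp only
        rw [if_pos hPd, ← mul_sum, ← mul_sum]
      have hNd : N ≤ X / d := by
        rw [Nat.le_div_iff_mul_le hd.1, hXN]
        exact Nat.mul_le_mul_left _ hPd.2.1
      have hyN : y ≤ N := by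
        rw [hN]
        calc y = y ^ 1 := (pow_one y).symm
          _ ≤ y ^ R := Nat.pow_le_pow_right hy1 (by omega)
      have h5 := hspec 1 (1 / 2) (by norm_num) (by norm_num) (by norm_num) (by norm_num) y (X / d)
        hy (hyN.trans hNd)
      have h6 : (R : ℝ) * ℓ ≤ Real.log ((X / d : ℕ) : ℝ) := by
        have : Real.log ((N : ℕ) : ℝ) ≤ Real.log ((X / d : ℕ) : ℝ) := by
          apply Real.log_le_log (by exact_mod_cast hNpos)
          exact_mod_cast hNd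
        rw [hN, Nat.cast_pow, Real.log_pow] at this
        exact this
      have h7 : Real.log ((X / d : ℕ) : ℝ) ^ ((1 : ℝ) / 2 - 1) ≤ ((R : ℝ) * ℓ) ^ (-(1 / 2) : ℝ) := by
        rw [show ((1 : ℝ) / 2 - 1) = -(1 / 2) by norm_num]
        apply Real.rpow_le_rpow_of_nonpos (by positivity) h6 (by norm_num)
      have h8 : ((R : ℝ) * ℓ) ^ (-(1 / 2) : ℝ) * ℓ ^ ((1 : ℝ) - 1 / 2) = (R : ℝ) ^ (-(1 / 2) : ℝ) := by
        rw [Real.mul_rpow (by positivity) hℓ0.le, mul_assoc, ← Real.rpow_add hℓ0]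
        norm_num
      have h9 : ∑ e ∈ Ioc 0 (X / d), W c2 e ≤ C0 * (X / d) * (R : ℝ) ^ (-(1 / 2) : ℝ) := by
        refine h5.trans ?_
        have hXd : ((X / d : ℕ) : ℝ) ≤ (X : ℝ) / d := Nat.cast_div_le
        calc C0 * ((X / d : ℕ) : ℝ) * Real.log ((X / d : ℕ) : ℝ) ^ ((1 : ℝ) / 2 - 1) *
              Real.log (y : ℝ) ^ ((1 : ℝ) - 1 / 2)
            ≤ C0 * ((X : ℝ) / d) * ((R : ℝ) * ℓ) ^ (-(1 / 2) : ℝ) * ℓ ^ ((1 : ℝ) - 1 / 2) := by
              gcongr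
          _ = C0 * (X / d) * (((R : ℝ) * ℓ) ^ (-(1 / 2) : ℝ) * ℓ ^ ((1 : ℝ) - 1 / 2)) := by ring
          _ = _ := by rw [h8]
      rw [h4]
      calc W c3 d * (2 ^ κ * ∑ e ∈ Ioc 0 (X / d), W c2 e)
          ≤ W c3 d * (2 ^ κ * (C0 * (X / d) * (R : ℝ) ^ (-(1 / 2) : ℝ))) := by
            apply mul_le_mul_of_nonneg_left _ (hW3 d)
            gcongr
        _ = _ := by ring
    · rw [if_neg hPd, mul_zero]
      apply le_of_eq
      apply sum_eq_zero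
      intro e _
      rw [hF]
      simp only
      rw [if_neg hPd, zero_mul]
  refine (sum_le_sum h3).trans ?_
  rw [← mul_sum]
  -- step 4
  set J := Nat.log 2 (y ^ (T + 1)) + 1 with hJ
  have h4 : ∑ d ∈ Ioc 0 X, (if Pd T R y d then W c3 d / d else 0) ≤
      ∑ j ∈ range J, (2 ^ (j + 1) / N : ℝ) * ∑ d ∈ Ioc 0 (N / 2 ^ j), W c3 d := by
    have h5 : ∀ d ∈ Ioc 0 X, (if Pd T R y d then W c3 d / d else 0) ≤
        ∑ j ∈ range J, (if d ≤ N / 2 ^ j then (2 ^ (j + 1) / N : ℝ) * W c3 d else 0) := by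
      intro d hd
      rw [mem_Ioc] at hd
      have hdR : (0 : ℝ) < d := by exact_mod_cast hd.1
      have hNR : (0 : ℝ) < N := by exact_mod_cast hNpos
      have hnn : ∀ j ∈ range J,
          0 ≤ (if d ≤ N / 2 ^ j then (2 ^ (j + 1) / N : ℝ) * W c3 d else 0) := by
        intro j _
        split_ifs
        · exact mul_nonneg (by positivity) (hW3 d)
        · exact le_rfl
      split_ifs with hPd
      · set j := Nat.log 2 (N / d) with hj
        have hNd : N / d ≠ 0 := (Nat.div_pos hPd.2.1 hd.1).ne'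
        have hj1 : 2 ^ j ≤ N / d := Nat.pow_log_le_self 2 hNd
        have hj2 : N / d < 2 ^ (j + 1) := Nat.lt_pow_succ_log_self (by norm_num) _
        have hjJ : j ∈ range J := by
          rw [mem_range, hJ]
          have h6 : N / d ≤ y ^ (T + 1) := by
            apply Nat.div_le_of_le_mul
            exact hPd.2.2
          have := Nat.log_mono_right (b := 2) h6
          omega
        have hdle : d ≤ N / 2 ^ j := by
          rw [Nat.le_div_iff_mul_le (by positivity)]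
          rw [Nat.le_div_iff_mul_le hd.1] at hj1
          rw [mul_comm]; exact hj1
        have h6 := single_le_sum (f := fun j => (if d ≤ N / 2 ^ j then
          (2 ^ (j + 1) / N : ℝ) * W c3 d else 0)) hnn hjJ
        rw [if_pos hdle] at h6
        refine le_trans ?_ h6
        rw [div_eq_mul_inv, mul_comm]
        apply mul_le_mul_of_nonneg_right _ (hW3 d)
        have h7 : N < 2 ^ (j + 1) * d := by
          rw [Nat.div_lt_iff_lt_mul hd.1] at hj2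
          exact hj2
        have h8 : (N : ℝ) ≤ 2 ^ (j + 1) * d := by exact_mod_cast h7.le
        rw [inv_eq_one_div, div_le_div_iff₀ hdR hNR]
        linarith
      · exact sum_nonneg hnn
    refine (sum_le_sum h5).trans ?_
    rw [sum_comm]
    apply sum_le_sum
    intro j _
    rw [← sum_filter, mul_sum]
    apply sum_le_sum_of_subset_of_nonneg
    · intro d hd
      rw [mem_filter, mem_Ioc] at hd
      rw [mem_Ioc]
      exact ⟨hd.1.1, hd.2⟩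
    · intro d _ _
      exact mul_nonneg (by positivity) (hW3 d)
  have h5 : ∀ j ∈ range J, (2 ^ (j + 1) / N : ℝ) * ∑ d ∈ Ioc 0 (N / 2 ^ j), W c3 d ≤
      3 * C0 * (R : ℝ) ^ (-(1 / 2) : ℝ) / ℓ := by
    intro j hj
    rw [mem_range, hJ] at hj
    have h2j : 2 ^ j ≤ y ^ (T + 1) := by
      calc 2 ^ j ≤ 2 ^ (Nat.log 2 (y ^ (T + 1))) := Nat.pow_le_pow_right (by norm_num) (by omega)
        _ ≤ y ^ (T + 1) := Nat.pow_log_le_self 2 (Nat.pow_pos (by omega)).ne'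
    have hge : y ^ (R - T - 1) ≤ N / 2 ^ j := by
      rw [Nat.le_div_iff_mul_le (by positivity)]
      calc y ^ (R - T - 1) * 2 ^ j ≤ y ^ (R - T - 1) * y ^ (T + 1) := Nat.mul_le_mul_left _ h2j
        _ = N := by rw [hN, ← pow_add]; congr 1; omega
    have hyle : y ≤ N / 2 ^ j := by
      refine le_trans ?_ hge
      calc y = y ^ 1 := (pow_one y).symm
        _ ≤ y ^ (R - T - 1) := Nat.pow_le_pow_right hy1 (by omega)
    have h6 := hspec 0 (1 / 2) (by norm_num) (by norm_num) (by norm_num) (by norm_num) y (N / 2 ^ j)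
      hy hyle
    have h7 : (R : ℝ) / 2 * ℓ ≤ Real.log ((N / 2 ^ j : ℕ) : ℝ) := by
      have h8 : Real.log ((y ^ (R - T - 1) : ℕ) : ℝ) ≤ Real.log ((N / 2 ^ j : ℕ) : ℝ) := by
        apply Real.log_le_log
        · exact_mod_cast Nat.pow_pos (by omega)
        · exact_mod_cast hge
      rw [Nat.cast_pow, Real.log_pow] at h8
      have h9 : (R : ℝ) / 2 ≤ ((R - T - 1 : ℕ) : ℝ) := by
        have : R ≤ 2 * (R - T - 1) := by omega
        have h10 : (R : ℝ) ≤ 2 * ((R - T - 1 : ℕ) : ℝ) := by exact_mod_cast this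
        linarith
      calc (R : ℝ) / 2 * ℓ ≤ ((R - T - 1 : ℕ) : ℝ) * ℓ := by gcongr
        _ ≤ _ := h8
    have h8 : Real.log ((N / 2 ^ j : ℕ) : ℝ) ^ ((1 : ℝ) / 2 - 1) ≤
        ((R : ℝ) / 2 * ℓ) ^ (-(1 / 2) : ℝ) := by
      rw [show ((1 : ℝ) / 2 - 1) = -(1 / 2) by norm_num]
      apply Real.rpow_le_rpow_of_nonpos (by positivity) h7 (by norm_num)
    have h9 : ((R : ℝ) / 2 * ℓ) ^ (-(1 / 2) : ℝ) * ℓ ^ ((0 : ℝ) - 1 / 2) ≤
        3 / 2 * (R : ℝ) ^ (-(1 / 2) : ℝ) / ℓ := by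
      have e1 : ((R : ℝ) / 2 * ℓ) ^ (-(1 / 2) : ℝ) =
          (2 : ℝ) ^ (1 / 2 : ℝ) * (R : ℝ) ^ (-(1 / 2) : ℝ) * ℓ ^ (-(1 / 2) : ℝ) := by
        rw [Real.mul_rpow (by positivity) hℓ0.le, Real.div_rpow (by positivity) (by norm_num),
          Real.rpow_neg (by norm_num : (0 : ℝ) ≤ 2), div_inv_eq_mul]
        ring
      have e2 : ℓ ^ (-(1 / 2) : ℝ) * ℓ ^ ((0 : ℝ) - 1 / 2) = ℓ⁻¹ := by
        rw [← Real.rpow_add hℓ0, ← Real.rpow_neg_one]
        norm_num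
      have e3 : (2 : ℝ) ^ (1 / 2 : ℝ) ≤ 3 / 2 := by
        rw [← Real.sqrt_eq_rpow, Real.sqrt_le_left (by norm_num)]
        norm_num
      rw [e1]
      calc (2 : ℝ) ^ (1 / 2 : ℝ) * (R : ℝ) ^ (-(1 / 2) : ℝ) * ℓ ^ (-(1 / 2) : ℝ) *
            ℓ ^ ((0 : ℝ) - 1 / 2)
          = (2 : ℝ) ^ (1 / 2 : ℝ) * (R : ℝ) ^ (-(1 / 2) : ℝ) *
            (ℓ ^ (-(1 / 2) : ℝ) * ℓ ^ ((0 : ℝ) - 1 / 2)) := by ring
        _ = (2 : ℝ) ^ (1 / 2 : ℝ) * ((R : ℝ) ^ (-(1 / 2) : ℝ) * ℓ⁻¹) := by rw [e2]; ring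
        _ ≤ 3 / 2 * ((R : ℝ) ^ (-(1 / 2) : ℝ) * ℓ⁻¹) := by gcongr
        _ = _ := by ring
    have hNR : (0 : ℝ) < N := by exact_mod_cast hNpos
    have hdiv : ((N / 2 ^ j : ℕ) : ℝ) ≤ (N : ℝ) / 2 ^ j := by
      have := Nat.cast_div_le (α := ℝ) (m := N) (n := 2 ^ j)
      push_cast at this
      exact this
    calc (2 ^ (j + 1) / N : ℝ) * ∑ d ∈ Ioc 0 (N / 2 ^ j), W c3 d
        ≤ (2 ^ (j + 1) / N : ℝ) * (C0 * ((N / 2 ^ j : ℕ) : ℝ) *
          Real.log ((N / 2 ^ j : ℕ) : ℝ) ^ ((1 : ℝ) / 2 - 1) *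
          Real.log (y : ℝ) ^ ((0 : ℝ) - 1 / 2)) := by gcongr
      _ ≤ (2 ^ (j + 1) / N : ℝ) * (C0 * ((N : ℝ) / 2 ^ j) *
          ((R : ℝ) / 2 * ℓ) ^ (-(1 / 2) : ℝ) * ℓ ^ ((0 : ℝ) - 1 / 2)) := by gcongr
      _ = 2 * C0 * (((R : ℝ) / 2 * ℓ) ^ (-(1 / 2) : ℝ) * ℓ ^ ((0 : ℝ) - 1 / 2)) := by
          rw [pow_succ]; field_simp
      _ ≤ 2 * C0 * (3 / 2 * (R : ℝ) ^ (-(1 / 2) : ℝ) / ℓ) := by gcongr
      _ = _ := by ring
  have hJle : (J : ℝ) ≤ 2 * (T + 2) * ℓ := by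
    have h6 : (Nat.log 2 (y ^ (T + 1)) : ℝ) * Real.log 2 ≤ (T + 1) * ℓ := by
      have h7 : 2 ^ (Nat.log 2 (y ^ (T + 1))) ≤ y ^ (T + 1) :=
        Nat.pow_log_le_self 2 (Nat.pow_pos (by omega)).ne'
      have h8 : Real.log (((2 ^ (Nat.log 2 (y ^ (T + 1))) : ℕ)) : ℝ) ≤
          Real.log ((y ^ (T + 1) : ℕ) : ℝ) := by
        apply Real.log_le_log
        · exact_mod_cast Nat.pow_pos (by norm_num)
        · exact_mod_cast h7
      rw [Nat.cast_pow, Nat.cast_pow, Real.log_pow, Real.log_pow] at h8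
      push_cast at h8
      exact h8
    have hlog2 : (2 : ℝ) / 3 < Real.log 2 := by
      have := Real.log_two_gt_d9
      linarith
    have h7 : (Nat.log 2 (y ^ (T + 1)) : ℝ) * (2 / 3) ≤ (T + 1) * ℓ := by
      refine le_trans ?_ h6
      gcongr
    rw [hJ]
    push_cast
    have hT0 : (0 : ℝ) ≤ T := by positivity
    nlinarith
  have h6 : ∑ j ∈ range J, (2 ^ (j + 1) / N : ℝ) * ∑ d ∈ Ioc 0 (N / 2 ^ j), W c3 d ≤
      6 * C0 * (T + 2) * (R : ℝ) ^ (-(1 / 2) : ℝ) := by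
    refine (sum_le_card_nsmul _ _ _ h5).trans ?_
    rw [card_range, nsmul_eq_mul]
    calc (J : ℝ) * (3 * C0 * (R : ℝ) ^ (-(1 / 2) : ℝ) / ℓ)
        ≤ (2 * (T + 2) * ℓ) * (3 * C0 * (R : ℝ) ^ (-(1 / 2) : ℝ) / ℓ) := by gcongr
      _ = _ := by field_simp; ring
  calc 2 ^ κ * C0 * X * (R : ℝ) ^ (-(1 / 2) : ℝ) *
        ∑ d ∈ Ioc 0 X, (if Pd T R y d then W c3 d / d else 0)
      ≤ 2 ^ κ * C0 * X * (R : ℝ) ^ (-(1 / 2) : ℝ) *
        (6 * C0 * (T + 2) * (R : ℝ) ^ (-(1 / 2) : ℝ)) := by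
        apply mul_le_mul_of_nonneg_left (h4.trans h6) (by positivity)
    _ = 6 * C0 ^ 2 * 2 ^ κ * (T + 2) * ((R : ℝ) ^ (-(1 / 2) : ℝ) * (R : ℝ) ^ (-(1 / 2) : ℝ)) * X := by
        ring
    _ = 6 * C0 ^ 2 * 2 ^ κ * (T + 2) / R * y ^ (2 * R) := by
        have : (R : ℝ) ^ (-(1 / 2) : ℝ) * (R : ℝ) ^ (-(1 / 2) : ℝ) = (R : ℝ)⁻¹ := by
          rw [← Real.rpow_add (by linarith), ← Real.rpow_neg_one]; norm_num
        rw [this, hX]
        push_cast
        ring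

end Pool.Agent.V11294.TC
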