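import Mathlib
import Pool.Agent.V11294.TC.Count

set_option autoImplicit false

/-! Few integers have a divisor in a short logarithmic window. -/

namespace Pool.Agent.V11294.TC

open Finset Filter Topology
open Pool.Agent.H500R2 (W W_mul W_nonneg)

lemma decomp (y : ℕ) {a : ℕ} (ha : a ≠ 0) : ∃ a1 a2 : ℕ, a = a1 * a2 ∧ 0 < a1 ∧ 0 < a2 ∧
    Real.log a1 = ls y a ∧ ∀ p ∈ a2.primeFactors, y < p := by
  classical
  refine ⟨∏ p ∈ a.primeFactors.filter (fun p => ¬ y < p), p ^ a.factorization p,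
    ∏ p ∈ a.primeFactors.filter (fun p => y < p), p ^ a.factorization p, ?_, ?_, ?_, ?_, ?_⟩
  · rw [mul_comm, prod_filter_mul_prod_filter_not]
    have := Nat.factorization_prod_pow_eq_self ha
    rw [Finsupp.prod, Nat.support_factorization] at this
    exact this.symm
  · apply prod_pos
    intro p hp
    exact Nat.pow_pos (Nat.prime_of_mem_primeFactors (mem_filter.1 hp).1).pos
  · apply prod_pos
    intro p hp
    exact Nat.pow_pos (Nat.prime_of_mem_primeFactors (mem_filter.1 hp).1).pos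
  · unfold ls
    push_cast
    rw [Real.log_prod]
    · apply sum_congr rfl
      intro p _
      rw [Real.log_pow]
    · intro p hp
      have := (Nat.prime_of_mem_primeFactors (mem_filter.1 hp).1).pos
      have h : (0 : ℝ) < p := by exact_mod_cast this
      positivity
  · intro p hp
    have hpp := Nat.prime_of_mem_primeFactors hp
    have hd := Nat.dvd_of_mem_primeFactors hp
    rw [Prime.dvd_finsetProd_iff hpp.prime] at hd
    obtain ⟨q, hq, hpq⟩ := hd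
    have hqp := Nat.prime_of_mem_primeFactors (mem_filter.1 hq).1
    have : p ∣ q := hpp.dvd_of_dvd_pow hpq
    rw [(Nat.prime_dvd_prime_iff_eq hpp hqp).1 this]
    exact (mem_filter.1 hq).2

/-- divisors in the window -/
def EE (R y : ℕ) : Set ℕ := {n : ℕ | n ∈ Ioc 0 (y ^ (2 * R)) ∧ ∃ a, a ∣ n ∧ a ≤ y ^ R ∧ y ^ (R - 1) ≤ a}

lemma EE_sub {T R y : ℕ} {κ : ℝ} (hR : 2 * T + 6 ≤ R) (hy : 3 ≤ y) : EE R y ⊆
    {n : ℕ | n ∈ Ioc 0 (y ^ (2 * R)) ∧ κ < (Om y n : ℝ)} ∪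
    ({n : ℕ | n ∈ Ioc 0 (y ^ (2 * R)) ∧ T * Real.log y < ls y n} ∪
    {n : ℕ | n ∈ Ioc 0 (y ^ (2 * R)) ∧ (Om y n : ℝ) ≤ κ ∧ ∃ d, d ∣ n ∧ Pd T R y d}) := by
  rintro n ⟨hn, a, han, ha1, ha2⟩
  by_cases h1 : κ < (Om y n : ℝ)
  · left; exact ⟨hn, h1⟩
  right
  by_cases h2 : T * Real.log y < ls y n
  · left; exact ⟨hn, h2⟩
  right
  push Not at h1 h2
  refine ⟨hn, h1, ?_⟩
  have hn0 : n ≠ 0 := by rw [mem_Ioc] at hn; omega
  have ha0 : a ≠ 0 := ne_zero_of_dvd_ne_zero hn0 han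
  obtain ⟨a1, a2, haa, ha1p, ha2p, hlog, hrough⟩ := decomp y ha0
  have h3 : Real.log a1 ≤ T * Real.log y := by
    rw [hlog]; exact (ls_mono hn0 han).trans h2
  have hyR : (0 : ℝ) < y := by
    have : (3 : ℝ) ≤ y := by exact_mod_cast hy
    linarith
  have ha1R : (0 : ℝ) < a1 := by exact_mod_cast ha1p
  have h4 : a1 ≤ y ^ T := by
    rw [← Real.log_pow] at h3
    have := (Real.log_le_log_iff ha1R (by positivity)).1 h3
    exact_mod_cast this
  refine ⟨a2, ?_, hrough, ?_, ?_⟩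
  · exact (Dvd.intro_left a1 haa.symm).trans han
  · refine le_trans ?_ ha1
    rw [haa]
    exact Nat.le_mul_of_pos_left _ ha1p
  · calc y ^ R = y ^ (R - 1) * y := by rw [← pow_succ]; congr 1; omega
      _ ≤ a * y := Nat.mul_le_mul_right _ ha2
      _ = a1 * a2 * y := by rw [haa]
      _ ≤ y ^ T * a2 * y := Nat.mul_le_mul_right _ (Nat.mul_le_mul_right _ h4)
      _ = a2 * y ^ (T + 1) := by rw [pow_succ]; ring

lemma E1_bound : ∃ C : ℝ, 0 < C ∧ ∀ R y : ℕ, ∀ κ : ℝ, 1 ≤ R → 3 ≤ y →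
    ((Set.ncard {n : ℕ | n ∈ Ioc 0 (y ^ (2 * R)) ∧ κ < (Om y n : ℝ)} : ℕ) : ℝ) ≤
      C * (13 / 10) ^ (-κ) * (R : ℝ) ^ (3 / 10 : ℝ) * y ^ (2 * R) := by
  classical
  obtain ⟨C0, hC0, hspec⟩ := spec
  refine ⟨C0 * (2 : ℝ) ^ (3 / 10 : ℝ), by positivity, ?_⟩
  intro R y κ hR hy
  have hℓ := log_one_le hy
  have hℓ0 : 0 < Real.log y := by linarith
  set X := y ^ (2 * R) with hX
  have hRR : (1 : ℝ) ≤ R := by exact_mod_cast hR
  have hset : {n : ℕ | n ∈ Ioc 0 X ∧ κ < (Om y n : ℝ)} =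
      (((Ioc 0 X).filter (fun n => κ < (Om y n : ℝ)) : Finset ℕ) : Set ℕ) := by
    ext n; simp
  rw [hset, Set.ncard_coe_finset]
  have hyX : y ≤ X := by
    calc y = y ^ 1 := (pow_one y).symm
      _ ≤ X := Nat.pow_le_pow_right (by omega) (by omega)
  have h1 := hspec 1 (13 / 10) (by norm_num) (by norm_num) (by norm_num) le_rfl y X hy hyX
  have h2 : (((Ioc 0 X).filter (fun n => κ < (Om y n : ℝ))).card : ℝ) * (13 / 10) ^ κ ≤
      ∑ m ∈ Ioc 0 X, W (cc y 1 (13 / 10)) m := by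
    rw [card_eq_sum_ones]
    push_cast
    rw [sum_mul, sum_filter]
    apply sum_le_sum
    intro n _
    rw [W_cc_one]
    split_ifs with h
    · rw [one_mul, ← Real.rpow_natCast]
      exact Real.rpow_le_rpow_of_exponent_le (by norm_num) h.le
    · positivity
  have h3 : Real.log X = 2 * R * Real.log y := by
    rw [hX, Nat.cast_pow, Real.log_pow]; push_cast; ring
  have h4 : Real.log X ^ ((13 : ℝ) / 10 - 1) * Real.log y ^ ((1 : ℝ) - 13 / 10) =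
      (2 : ℝ) ^ (3 / 10 : ℝ) * (R : ℝ) ^ (3 / 10 : ℝ) := by
    rw [h3, Real.mul_rpow (by positivity) hℓ0.le, Real.mul_rpow (by norm_num) (by positivity),
      mul_assoc, ← Real.rpow_add hℓ0]
    norm_num
  have h5 : (((Ioc 0 X).filter (fun n => κ < (Om y n : ℝ))).card : ℝ) * (13 / 10) ^ κ ≤
      C0 * X * ((2 : ℝ) ^ (3 / 10 : ℝ) * (R : ℝ) ^ (3 / 10 : ℝ)) := by
    rw [← h4]
    refine h2.trans (h1.trans (le_of_eq ?_))
    ring
  have h6 : (0 : ℝ) < (13 / 10) ^ κ := by positivity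
  rw [← le_div_iff₀ h6] at h5
  refine h5.trans (le_of_eq ?_)
  rw [Real.rpow_neg (by norm_num), hX]
  push_cast
  field_simp

lemma E2_bound : ∃ y0 : ℕ, ∀ T R y : ℕ, 1 ≤ T → y0 ≤ y →
    ((Set.ncard {n : ℕ | n ∈ Ioc 0 (y ^ (2 * R)) ∧ T * Real.log y < ls y n} : ℕ) : ℝ) ≤
      4 / T * y ^ (2 * R) := by
  classical
  obtain ⟨C, hC, hls⟩ := ls_sum
  obtain ⟨y0, hy0⟩ := exists_nat_gt (Real.exp C)
  refine ⟨max y0 3, ?_⟩
  intro T R y hT hy
  have hy3 : 3 ≤ y := (le_max_right _ _).trans hy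
  have hyy : y0 ≤ y := (le_max_left _ _).trans hy
  have hℓ := log_one_le hy3
  have hTR : (1 : ℝ) ≤ T := by exact_mod_cast hT
  have hCle : C ≤ Real.log y := by
    have hyp : (0 : ℝ) < y := by exact_mod_cast (by omega : 0 < y)
    rw [Real.le_log_iff_exp_le hyp]
    have : (y0 : ℝ) ≤ y := by exact_mod_cast hyy
    linarith
  set X := y ^ (2 * R) with hX
  have hset : {n : ℕ | n ∈ Ioc 0 X ∧ T * Real.log y < ls y n} =
      (((Ioc 0 X).filter (fun n => T * Real.log y < ls y n) : Finset ℕ) : Set ℕ) := by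
    ext n; simp
  rw [hset, Set.ncard_coe_finset]
  have h1 := hls y X (by omega)
  have h2 : (((Ioc 0 X).filter (fun n => T * Real.log y < ls y n)).card : ℝ) *
      (T * Real.log y) ≤ ∑ n ∈ Ioc 0 X, ls y n := by
    rw [card_eq_sum_ones]
    push_cast
    rw [sum_mul, sum_filter]
    apply sum_le_sum
    intro n _
    split_ifs with h
    · rw [one_mul]; exact h.le
    · exact ls_nonneg y n
  have h3 : (((Ioc 0 X).filter (fun n => T * Real.log y < ls y n)).card : ℝ) *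
      (T * Real.log y) ≤ 4 * X * Real.log y := by
    refine h2.trans (h1.trans ?_)
    have hX0 : (0 : ℝ) ≤ X := by positivity
    nlinarith
  have h4 : 0 < T * Real.log y := by positivity
  rw [← le_div_iff₀ h4] at h3
  refine h3.trans (le_of_eq ?_)
  rw [hX]
  push_cast
  field_simp

theorem window_small : ∀ ε : ℝ, 0 < ε → ∃ R y0 : ℕ, 1 ≤ R ∧ ∀ y : ℕ, y0 ≤ y →
    (((EE R y).ncard : ℕ) : ℝ) ≤ ε * y ^ (2 * R) := by
  classical
  intro ε hε
  obtain ⟨C1, hC1, h1⟩ := E1_bound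
  obtain ⟨y0, h2⟩ := E2_bound
  obtain ⟨C3, hC3, h3⟩ := E3_bound
  obtain ⟨T, hT⟩ := exists_nat_gt (12 / ε)
  have hT0 : (0 : ℝ) < T := lt_trans (by positivity) hT
  have hT1 : 1 ≤ T := by exact_mod_cast hT0
  have hTε : 4 / (T : ℝ) ≤ ε / 3 := by
    rw [div_lt_iff₀ hε] at hT
    rw [div_le_div_iff₀ hT0 (by norm_num)]
    linarith
  -- choose R
  have t1 : Tendsto (fun R : ℕ => C1 * (R : ℝ) ^ (-(19 / 1000) : ℝ)) atTop (𝓝 0) := by
    have := ((tendsto_rpow_neg_atTop (by norm_num : (0 : ℝ) < 19 / 1000)).comp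
      tendsto_natCast_atTop_atTop).const_mul C1
    simpa using this
  have t2 : Tendsto (fun R : ℕ => C3 * (T + 2) * (R : ℝ) ^ (-(9 / 100) : ℝ)) atTop (𝓝 0) := by
    have := ((tendsto_rpow_neg_atTop (by norm_num : (0 : ℝ) < 9 / 100)).comp
      tendsto_natCast_atTop_atTop).const_mul (C3 * (T + 2))
    simpa using this
  obtain ⟨R, hR1, hR2, hR3⟩ := ((t1.eventually_le_const (by positivity : 0 < ε / 3)).and
    ((t2.eventually_le_const (by positivity : 0 < ε / 3)).and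
      (eventually_ge_atTop (2 * T + 6)))).exists
  refine ⟨R, max y0 3, by omega, ?_⟩
  intro y hy
  have hy3 : 3 ≤ y := (le_max_right _ _).trans hy
  have hyy : y0 ≤ y := (le_max_left _ _).trans hy
  have hRpos : (0 : ℝ) < R := by exact_mod_cast (by omega : 0 < R)
  have hR1' : (1 : ℝ) ≤ R := by exact_mod_cast (by omega : 1 ≤ R)
  have hlogR : 0 ≤ Real.log R := Real.log_nonneg hR1'
  set κ : ℝ := 13 / 10 * Real.log R with hκ
  have b1 := h1 R y κ (by omega) hy3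
  have b2 := h2 T R y hT1 hyy
  have b3 := h3 T R y κ hR3 hy3
  have hXpos : (0 : ℝ) < (y : ℝ) ^ (2 * R) := by
    have : (0 : ℝ) < y := by exact_mod_cast (by omega : 0 < y)
    positivity
  have hlog13 : (2456 : ℝ) / 10000 ≤ Real.log (13 / 10) := by
    have e1 := Real.one_sub_inv_le_log_of_pos (show (0 : ℝ) < 57 / 50 by norm_num)
    have e2 : Real.log ((57 / 50 : ℝ) ^ 2) ≤ Real.log (13 / 10) := by
      apply Real.log_le_log (by norm_num) (by norm_num)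
    rw [Real.log_pow] at e2
    push_cast at e2
    norm_num at e1
    linarith
  have hlog2 : Real.log 2 ≤ 7 / 10 := by
    have := Real.log_two_lt_d9
    linarith
  have c1 : C1 * (13 / 10) ^ (-κ) * (R : ℝ) ^ (3 / 10 : ℝ) ≤ ε / 3 := by
    refine le_trans ?_ hR1
    rw [mul_assoc]
    apply mul_le_mul_of_nonneg_left _ hC1.le
    rw [Real.rpow_def_of_pos (by norm_num : (0 : ℝ) < 13 / 10), Real.rpow_def_of_pos hRpos,
      Real.rpow_def_of_pos hRpos, ← Real.exp_add]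
    apply Real.exp_le_exp.2
    rw [hκ]
    nlinarith
  have c3 : C3 * 2 ^ κ * (T + 2) / R ≤ ε / 3 := by
    refine le_trans ?_ hR2
    have e1 : (2 : ℝ) ^ κ / R ≤ (R : ℝ) ^ (-(9 / 100) : ℝ) := by
      have e2 : (2 : ℝ) ^ κ / R = Real.exp (Real.log 2 * κ - Real.log R) := by
        rw [Real.exp_sub, Real.exp_log hRpos, Real.rpow_def_of_pos (by norm_num : (0 : ℝ) < 2)]
      rw [e2, Real.rpow_def_of_pos hRpos]
      apply Real.exp_le_exp.2
      rw [hκ]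
      nlinarith
    calc C3 * 2 ^ κ * (T + 2) / R = C3 * (T + 2) * (2 ^ κ / R) := by ring
      _ ≤ C3 * (T + 2) * (R : ℝ) ^ (-(9 / 100) : ℝ) := by gcongr
  have hsub := EE_sub (κ := κ) hR3 hy3
  have f1 : ({n : ℕ | n ∈ Ioc 0 (y ^ (2 * R)) ∧ κ < (Om y n : ℝ)}).Finite :=
    (finite_toSet (Ioc 0 (y ^ (2 * R)))).subset fun n hn => hn.1
  have f2 : ({n : ℕ | n ∈ Ioc 0 (y ^ (2 * R)) ∧ T * Real.log y < ls y n}).Finite :=
    (finite_toSet (Ioc 0 (y ^ (2 * R)))).subset fun n hn => hn.1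
  have f3 : ({n : ℕ | n ∈ Ioc 0 (y ^ (2 * R)) ∧ (Om y n : ℝ) ≤ κ ∧ ∃ d, d ∣ n ∧ Pd T R y d}).Finite :=
    (finite_toSet (Ioc 0 (y ^ (2 * R)))).subset fun n hn => hn.1
  have hcard : (EE R y).ncard ≤
      ({n : ℕ | n ∈ Ioc 0 (y ^ (2 * R)) ∧ κ < (Om y n : ℝ)}).ncard +
      (({n : ℕ | n ∈ Ioc 0 (y ^ (2 * R)) ∧ T * Real.log y < ls y n}).ncard +
      ({n : ℕ | n ∈ Ioc 0 (y ^ (2 * R)) ∧ (Om y n : ℝ) ≤ κ ∧ ∃ d, d ∣ n ∧ Pd T R y d}).ncard) :=
    (Set.ncard_le_ncard hsub (f1.union (f2.union f3))).trans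
      ((Set.ncard_union_le _ _).trans (Nat.add_le_add_left (Set.ncard_union_le _ _) _))
  have hcardR : (((EE R y).ncard : ℕ) : ℝ) ≤
      (({n : ℕ | n ∈ Ioc 0 (y ^ (2 * R)) ∧ κ < (Om y n : ℝ)}).ncard : ℝ) +
      ((({n : ℕ | n ∈ Ioc 0 (y ^ (2 * R)) ∧ T * Real.log y < ls y n}).ncard : ℝ) +
      (({n : ℕ | n ∈ Ioc 0 (y ^ (2 * R)) ∧ (Om y n : ℝ) ≤ κ ∧ ∃ d, d ∣ n ∧ Pd T R y d}).ncard : ℝ)) := by
    exact_mod_cast hcard
  refine hcardR.trans ?_
  have d1 : C1 * (13 / 10) ^ (-κ) * (R : ℝ) ^ (3 / 10 : ℝ) * y ^ (2 * R) ≤ ε / 3 * y ^ (2 * R) := by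
    gcongr
  have d2 : 4 / (T : ℝ) * y ^ (2 * R) ≤ ε / 3 * y ^ (2 * R) := by gcongr
  have d3 : C3 * 2 ^ κ * (T + 2) / R * y ^ (2 * R) ≤ ε / 3 * y ^ (2 * R) := by gcongr
  linarith

end Pool.Agent.V11294.TC
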