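import Mathlib
import Pool.Agent.V11294.TC.Win

set_option autoImplicit false

/-! The two-class partition. -/

namespace Pool.Agent.V11294.TC

open Finset Filter Topology

/-- integers with a divisor just below `N` -/
def WW (j N : ℕ) : Set ℕ := {n : ℕ | n ∈ Ioc 0 (N ^ 2) ∧ ∃ a, a ∣ n ∧ a < N ∧ N ^ 2 < a ^ 2 * (j + 1)}

def Step (f : ℕ → ℝ) (j B N : ℕ) : Prop :=
  B < N ∧ 1 < N ∧ j + 1 ≤ N ∧ (∀ n : ℕ, N ^ 2 < n * (j + 1) → (B : ℝ) < f n) ∧
    (WW j N).ncard * (j + 1) ≤ N ^ 2

lemma step {f : ℕ → ℝ} (hf : Tendsto f atTop atTop) (j B : ℕ) : ∃ N, Step f j B N := by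
  obtain ⟨R, y0, hR, hw⟩ := window_small (1 / ((j : ℝ) + 1)) (by positivity)
  obtain ⟨n0, hn0⟩ := eventually_atTop.1 (hf.eventually_gt_atTop (B : ℝ))
  set y := y0 + j + B + n0 * (j + 1) + 3 with hy
  set N := y ^ R with hN
  have hyN : y ≤ N := by
    calc y = y ^ 1 := (pow_one y).symm
      _ ≤ y ^ R := Nat.pow_le_pow_right (by omega) hR
  refine ⟨N, by omega, by omega, by omega, ?_, ?_⟩
  · intro n hn
    apply hn0
    by_contra hcon
    push Not at hcon
    have h1 : n * (j + 1) ≤ n0 * (j + 1) := Nat.mul_le_mul_right _ hcon.le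
    have h2 : N ≤ N ^ 2 := by nlinarith
    omega
  · have hsub : WW j N ⊆ EE R y := by
      rintro n ⟨hn, a, ha, haN, hN2⟩
      refine ⟨?_, a, ha, haN.le, ?_⟩
      · have : y ^ (2 * R) = N ^ 2 := by rw [hN, ← pow_mul, mul_comm]
        rw [this]; exact hn
      · have h1 : N ^ 2 < (a * y) ^ 2 := by
          refine lt_of_lt_of_le hN2 ?_
          rw [mul_pow]
          apply Nat.mul_le_mul_left
          have h5 : j + 1 ≤ y := by omega
          nlinarith
        have h2 : N < a * y := lt_of_pow_lt_pow_left₀ 2 (by positivity) h1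
        have h3 : y ^ (R - 1) * y = N := by rw [hN, ← pow_succ]; congr 1; omega
        rw [← h3] at h2
        exact (Nat.lt_of_mul_lt_mul_right h2).le
    have hfin : (EE R y).Finite := (finite_toSet (Ioc 0 (y ^ (2 * R)))).subset fun n hn => hn.1
    have h1 := Set.ncard_le_ncard hsub hfin
    have h2 := hw y (by omega)
    have h3 : ((WW j N).ncard : ℝ) ≤ 1 / ((j : ℝ) + 1) * y ^ (2 * R) := by
      refine le_trans ?_ h2
      exact_mod_cast h1
    have h4 : (y : ℝ) ^ (2 * R) = (N : ℝ) ^ 2 := by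
      rw [hN]; push_cast; rw [← pow_mul, mul_comm]
    rw [h4] at h3
    have hj : (0 : ℝ) < (j : ℝ) + 1 := by positivity
    have h5 : ((WW j N).ncard : ℝ) * ((j : ℝ) + 1) ≤ (N : ℝ) ^ 2 := by
      calc ((WW j N).ncard : ℝ) * ((j : ℝ) + 1) ≤ (1 / ((j : ℝ) + 1) * (N : ℝ) ^ 2) * ((j : ℝ) + 1) := by
            gcongr
        _ = (N : ℝ) ^ 2 := by field_simp
    exact_mod_cast h5

/-- products of two elements of one class, both exceeding `f` -/
def DD (f : ℕ → ℝ) (A₁ A₂ : Set ℕ) : Set ℕ :=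
  {n | 1 ≤ n ∧ ∃ a a' : ℕ, n = a * a' ∧ ((a ∈ A₁ ∧ a' ∈ A₁) ∨ (a ∈ A₂ ∧ a' ∈ A₂)) ∧
    f n < a ∧ f n < a'}

theorem main (f : ℕ → ℝ) (hf : Tendsto f atTop atTop) :
    ∃ A₁ A₂ : Set ℕ, A₁.Nonempty ∧ A₂.Nonempty ∧ Disjoint A₁ A₂ ∧ A₁ ∪ A₂ = {n | 1 ≤ n} ∧
      liminf (fun M : ℕ => ((DD f A₁ A₂ ∩ Set.Icc 1 M).ncard : ℝ) / M) atTop = 0 := by
  classical
  choose g hg using step hf
  let S : ℕ → ℕ := fun j => Nat.rec (g 0 1) (fun j s => g (j + 1) (s ^ 2)) j
  have hS0 : S 0 = g 0 1 := rfl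
  have hS1 : ∀ j, S (j + 1) = g (j + 1) (S j ^ 2) := fun j => rfl
  let B : ℕ → ℕ := fun j => if j = 0 then 1 else S (j - 1) ^ 2
  have hstep : ∀ j, Step f j (B j) (S j) := by
    intro j
    rcases Nat.eq_zero_or_pos j with rfl | hj
    · exact hg 0 1
    · obtain ⟨i, rfl⟩ := Nat.exists_eq_add_of_le' hj
      have : B (i + 1) = S i ^ 2 := by
        simp [B]
      rw [this]
      exact hg (i + 1) (S i ^ 2)
  have hS2 : ∀ j, 1 < S j := fun j => (hstep j).2.1
  have hlt : ∀ j, S j ^ 2 < S (j + 1) := by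
    intro j
    have := (hstep (j + 1)).1
    have e : B (j + 1) = S j ^ 2 := by simp [B]
    rwa [e] at this
  have hmono : StrictMono S := by
    apply strictMono_nat_of_lt_succ
    intro j
    have h1 := hlt j
    have h2 := hS2 j
    nlinarith
  set A₁ : Set ℕ := {a | ∃ j, S j ≤ a ∧ a ≤ S j ^ 2} with hA1
  set A₂ : Set ℕ := {a | 1 ≤ a ∧ a ∉ A₁} with hA2
  refine ⟨A₁, A₂, ⟨S 0, 0, le_rfl, by have := hS2 0; nlinarith⟩, ⟨1, le_rfl, ?_⟩, ?_, ?_, ?_⟩
  · rintro ⟨j, h1, _⟩
    have := hS2 j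
    omega
  · rw [Set.disjoint_left]
    intro a h1 h2
    exact h2.2 h1
  · ext a
    simp only [Set.mem_union, Set.mem_ofPred_eq]
    constructor
    · rintro (h | h)
      · obtain ⟨j, h1, _⟩ := h
        have := hS2 j
        omega
      · exact h.1
    · intro h
      rcases Classical.em (a ∈ A₁) with h1 | h1
      · left; exact h1
      · right; exact ⟨h, h1⟩
  · -- the key inclusion
    have key : ∀ j n a a' : ℕ, a' ≤ a → n = a * a' →
        ((a ∈ A₁ ∧ a' ∈ A₁) ∨ (a ∈ A₂ ∧ a' ∈ A₂)) → 1 ≤ n → n ≤ S j ^ 2 →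
        S j ^ 2 < n * (j + 1) → B j < a' → n ∈ WW j (S j) ∪ {S j ^ 2} := by
      intro j n a a' hle hn hcl hn1 hnS hbig hB
      by_cases hnS' : n = S j ^ 2
      · right; exact hnS'
      left
      have hnlt : n < S j ^ 2 := lt_of_le_of_ne hnS hnS'
      have h1 : a' ^ 2 < S j ^ 2 := by
        refine lt_of_le_of_lt ?_ hnlt
        rw [hn, pow_two]
        exact Nat.mul_le_mul_right _ hle
      have h2 : a' < S j := lt_of_pow_lt_pow_left₀ 2 (by positivity) h1
      have h3 : a' ∉ A₁ := by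
        rintro ⟨i, hi1, hi2⟩
        rcases Nat.lt_or_ge i j with h | h
        · have h4 : S i ≤ S (j - 1) := hmono.monotone (by omega)
          have h5 : B j = S (j - 1) ^ 2 := by
            simp only [B]
            rw [if_neg (by omega)]
          have h6 : S i ^ 2 ≤ S (j - 1) ^ 2 := Nat.pow_le_pow_left h4 2
          omega
        · have h4 : S j ≤ S i := hmono.monotone h
          omega
      have h4 : a ∉ A₁ := by
        rcases hcl with h | h
        · exact absurd h.2 h3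
        · exact h.1.2
      have ha'1 : 1 ≤ a' := by
        rcases Nat.eq_zero_or_pos a' with hc | hc
        · rw [hc, mul_zero] at hn
          omega
        · exact hc
      have h5 : a ≤ n := by
        rw [hn]
        exact Nat.le_mul_of_pos_right _ ha'1
      have h6 : a < S j := by
        rcases Nat.lt_or_ge a (S j) with hc | hc
        · exact hc
        · exact absurd ⟨j, hc, by omega⟩ h4
      refine ⟨mem_Ioc.2 ⟨hn1, hnS⟩, a, Dvd.intro _ hn.symm, h6, ?_⟩
      refine lt_of_lt_of_le hbig ?_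
      apply Nat.mul_le_mul_right
      rw [hn, pow_two]
      exact Nat.mul_le_mul_left _ hle
    have hincl : ∀ j, DD f A₁ A₂ ∩ Set.Icc 1 (S j ^ 2) ⊆
        ((Icc 1 (S j ^ 2 / (j + 1)) : Finset ℕ) : Set ℕ) ∪ (WW j (S j) ∪ {S j ^ 2}) := by
      rintro j n ⟨⟨hn1, a, a', hn, hcl, hfa, hfa'⟩, hI⟩
      rw [Set.mem_Icc] at hI
      by_cases hsm : n * (j + 1) ≤ S j ^ 2
      · left
        rw [mem_coe, mem_Icc]
        exact ⟨hn1, (Nat.le_div_iff_mul_le (by omega)).2 hsm⟩
      · right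
        push Not at hsm
        have hB := (hstep j).2.2.2.1 n hsm
        rcases le_total a' a with h | h
        · have : B j < a' := by
            have : (B j : ℝ) < a' := hB.trans hfa'
            exact_mod_cast this
          exact key j n a a' h hn hcl hn1 hI.2 hsm this
        · have : B j < a := by
            have : (B j : ℝ) < a := hB.trans hfa
            exact_mod_cast this
          exact key j n a' a h (by rw [hn, mul_comm]) (by
            rcases hcl with h | h
            · left; exact ⟨h.2, h.1⟩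
            · right; exact ⟨h.2, h.1⟩) hn1 hI.2 hsm this
    have hratio : ∀ j, ((DD f A₁ A₂ ∩ Set.Icc 1 (S j ^ 2)).ncard : ℝ) / ((S j ^ 2 : ℕ) : ℝ) ≤
        3 / ((j : ℝ) + 1) := by
      intro j
      have hWfin : (WW j (S j)).Finite :=
        (finite_toSet (Ioc 0 (S j ^ 2))).subset fun n hn => hn.1
      have h1 := Set.ncard_le_ncard (hincl j)
        ((finite_toSet _).union (hWfin.union (Set.finite_singleton _)))
      have h2 := h1.trans ((Set.ncard_union_le _ _).trans
        (Nat.add_le_add_left (Set.ncard_union_le _ _) _))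
      rw [Set.ncard_coe_finset, Nat.card_Icc, Nat.add_sub_cancel, Set.ncard_singleton] at h2
      have hj : (0 : ℝ) < (j : ℝ) + 1 := by positivity
      have hSp : (0 : ℝ) < ((S j ^ 2 : ℕ) : ℝ) := by
        have : 0 < S j ^ 2 := by have := hS2 j; positivity
        exact_mod_cast this
      have h3 : ((WW j (S j)).ncard : ℝ) * ((j : ℝ) + 1) ≤ ((S j ^ 2 : ℕ) : ℝ) := by
        exact_mod_cast (hstep j).2.2.2.2
      have h4 : (((S j ^ 2 / (j + 1) : ℕ)) : ℝ) * ((j : ℝ) + 1) ≤ ((S j ^ 2 : ℕ) : ℝ) := by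
        exact_mod_cast Nat.div_mul_le_self (S j ^ 2) (j + 1)
      have h5 : ((j : ℝ) + 1) ≤ ((S j ^ 2 : ℕ) : ℝ) := by
        have h6 := (hstep j).2.2.1
        have h7 : j + 1 ≤ S j ^ 2 := by nlinarith [hS2 j]
        exact_mod_cast h7
      have h6 : ((DD f A₁ A₂ ∩ Set.Icc 1 (S j ^ 2)).ncard : ℝ) ≤
          (((S j ^ 2 / (j + 1) : ℕ)) : ℝ) + (((WW j (S j)).ncard : ℝ) + 1) := by
        exact_mod_cast h2
      rw [div_le_div_iff₀ hSp hj]
      nlinarith
    set u : ℕ → ℝ := fun M : ℕ => ((DD f A₁ A₂ ∩ Set.Icc 1 M).ncard : ℝ) / M with hu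
    have hu0 : ∀ M, 0 ≤ u M := fun M => by rw [hu]; positivity
    have hu1 : ∀ M, u M ≤ 1 := by
      intro M
      rw [hu]
      simp only
      apply div_le_one_of_le₀ _ (by positivity)
      have h1 : (DD f A₁ A₂ ∩ Set.Icc 1 M).ncard ≤ (Set.Icc 1 M).ncard :=
        Set.ncard_le_ncard Set.inter_subset_right (Set.finite_Icc 1 M)
      have h2 : (Set.Icc 1 M).ncard = M := by
        rw [← Finset.coe_Icc, Set.ncard_coe_finset, Nat.card_Icc, Nat.add_sub_cancel]
      rw [h2] at h1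
      exact_mod_cast h1
    have hbdd : IsBoundedUnder (· ≥ ·) atTop u := isBoundedUnder_of ⟨0, hu0⟩
    have hbdd' : IsBoundedUnder (· ≤ ·) atTop u := isBoundedUnder_of ⟨1, hu1⟩
    apply le_antisymm
    · apply le_of_forall_pos_le_add
      intro ε hε
      rw [zero_add]
      apply liminf_le_of_frequently_le _ hbdd
      rw [frequently_atTop]
      intro M0
      obtain ⟨j, hj⟩ := exists_nat_gt (max (M0 : ℝ) (3 / ε))
      have hj1 : (M0 : ℝ) < j := lt_of_le_of_lt (le_max_left _ _) hj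
      have hj2 : 3 / ε < j := lt_of_le_of_lt (le_max_right _ _) hj
      refine ⟨S j ^ 2, ?_, ?_⟩
      · have h1 : M0 < j := by exact_mod_cast hj1
        have h2 : j + 1 ≤ S j := (hstep j).2.2.1
        nlinarith
      · refine (hratio j).trans ?_
        rw [div_lt_iff₀ hε] at hj2
        rw [div_le_iff₀ (by positivity)]
        nlinarith
    · apply le_liminf_of_le hbdd'.isCoboundedUnder_ge
      exact Eventually.of_forall hu0

end Pool.Agent.V11294.TC
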